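import Pool.Agent.H.MP_87030c_co.Main

namespace Pool.Agent.Results.MP_87030c_co.Full
open Filter Topology Pool.Agent.H.MP_87030c_co

theorem result (d : ℕ) (hd : 1 ≤ d) : Tendsto (fun m => prob d m) atTop (𝓝 1) := main d hd

end Pool.Agent.Results.MP_87030c_co.Full
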